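import Mathlib

set_option autoImplicit false

namespace Pool.Agent.LinExt

/-! ## The analytic part -/

/-- `Q(j) = j^2 + n j + k`. -/
noncomputable def Q (n k : ℝ) (j : ℕ) : ℝ := (j:ℝ) ^ 2 + n * j + k

/-- `R_u(j) = j^2 + (n-1) j + (k-u)`. -/
noncomputable def R (n k u : ℝ) (j : ℕ) : ℝ := (j:ℝ) ^ 2 + (n - 1) * j + (k - u)

/-- partial products of `Q / R_u`. -/
noncomputable def W (n k u : ℝ) (J : ℕ) : ℝ :=
  ∏ j ∈ Finset.range J, Q n k (j + 1) / R n k u (j + 1)

lemma W_zero (n k u : ℝ) : W n k u 0 = 1 := by simp [W]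

lemma W_succ (n k u : ℝ) (J : ℕ) :
    W n k u (J + 1) = W n k u J * (Q n k (J + 1) / R n k u (J + 1)) := by
  unfold W
  rw [Finset.prod_range_succ]

lemma conv_aux (A B x : ℝ) (hA : A ≠ 0) (hB : B ≠ 0) (hx : A - x ≠ 0) :
    1 / A + (A + 1) * x / (A * B) - (x + 1) / (A - x)
      = (A + 1) * (x * ((A - B) - x)) / (A * B * (A - x)) := by
  field_simp
  ring

lemma R_pos {n k u m : ℝ} (hm : 1 ≤ m) (hu : u ≤ n - m) (hu0 : 0 ≤ u) (hk : 0 ≤ k) (j : ℕ) :
    0 < R n k u (j + 1) := by
  unfold R
  push_cast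
  have hj : (0:ℝ) ≤ j := Nat.cast_nonneg j
  nlinarith [mul_nonneg hj (show 0 ≤ n - 1 by linarith)]

lemma Q_pos {n k : ℝ} (hn : 0 ≤ n) (hk : 0 ≤ k) (j : ℕ) : 0 < Q n k (j + 1) := by
  unfold Q
  push_cast
  have hj : (0:ℝ) ≤ j := Nat.cast_nonneg j
  nlinarith [mul_nonneg hn hj]

lemma W_pos {n k u m : ℝ} (hm : 1 ≤ m) (hu : u ≤ n - m) (hu0 : 0 ≤ u) (hk : 0 ≤ k) (J : ℕ) :
    0 < W n k u J := by
  unfold W
  apply Finset.prod_pos
  intro j _
  exact div_pos (Q_pos (by linarith) hk j) (R_pos hm hu hu0 hk j)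

lemma caseA {n k u m : ℝ} (hm : 1 ≤ m) (hu : u ≤ n - m) (hu0 : 0 ≤ u)
    (hk : m * (n - m) ≤ k) (hk0 : 0 ≤ k) (J : ℕ) : W n k u J ≤ (J + m) / m := by
  induction J with
  | zero => rw [W_zero]; simp; rw [div_self (by linarith)]
  | succ J ih =>
    rw [W_succ]
    have hj : (0:ℝ) ≤ J := Nat.cast_nonneg J
    have hR := R_pos hm hu hu0 hk0 J
    have hq : Q n k (J + 1) / R n k u (J + 1) ≤ (J + 1 + m) / (J + m) := by
      rw [div_le_div_iff₀ hR (by linarith)]
      unfold Q R
      push_cast
      nlinarith [mul_nonneg (show 0 ≤ n - m - u by linarith) hj,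
        mul_nonneg (show 0 ≤ n - m - u by linarith) (show 0 ≤ m by linarith)]
    calc W n k u J * (Q n k (J + 1) / R n k u (J + 1))
        ≤ (J + m) / m * ((J + 1 + m) / (J + m)) := by
          apply mul_le_mul ih hq (div_pos (Q_pos (by linarith) hk0 J) hR).le
          apply div_nonneg <;> linarith
      _ = ((J + 1 : ℕ) + m) / m := by
          push_cast
          have h1 : (J:ℝ) + m ≠ 0 := by linarith
          have h2 : m ≠ 0 := by linarith
          field_simp

lemma caseB {ι : Type} (S : Finset ι) (u : ι → ℝ) {n k m : ℝ} (hm : 1 ≤ m)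
    (hcard : (S.card : ℝ) = m)
    (hu : ∀ i ∈ S, u i ≤ n - m) (hu0 : ∀ i ∈ S, 0 ≤ u i) (hsum : ∑ i ∈ S, u i ≤ k)
    (hk : k ≤ m * (n - m)) (hk0 : 0 ≤ k) (hnm : 0 ≤ n - m) (J : ℕ) :
    ∑ i ∈ S, W n k (u i) J ≤ m + J ∧ ∑ i ∈ S, W n k (u i) J * (u i + J) ≤ Q n k J := by
  induction J with
  | zero =>
    constructor
    · simp [W_zero, hcard]
    · simp [W_zero, Q]; exact hsum
  | succ J ih =>
    obtain ⟨ih1, ih2⟩ := ih
    have hj : (0:ℝ) ≤ J := Nat.cast_nonneg J
    set K := Q n k J with hK
    have hK0 : 0 ≤ K := by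
      rw [hK]; unfold Q; nlinarith [mul_nonneg (show 0 ≤ n by linarith) hj]
    have hKle : K ≤ (m + J) * (n - m + J) := by
      rw [hK]; unfold Q; nlinarith
    set A := K + n + 2 * J with hA
    have hApos : 0 < A := by rw [hA]; linarith
    have hADpos : 0 < K + m + J := by linarith
    -- pointwise bound
    have hpt : ∀ i ∈ S, (u i + J + 1) / R n k (u i) (J + 1)
        ≤ 1 / A + (A + 1) * (u i + J) / (A * (K + m + J)) := by
      intro i hi
      have hR := R_pos hm (hu i hi) (hu0 i hi) hk0 J
      have hReq : R n k (u i) (J + 1) = A - (u i + J) := by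
        rw [hA, hK]; unfold R Q; push_cast; ring
      have hx0 : 0 ≤ u i + J := by linarith [hu0 i hi]
      have hxD : u i + J ≤ n - m + J := by linarith [hu i hi]
      rw [hReq] at hR ⊢
      have key : 1 / A + (A + 1) * (u i + J) / (A * (K + m + J)) - (u i + J + 1) / (A - (u i + J))
          = (A + 1) * ((u i + J) * (n - m + J - (u i + J))) / (A * (K + m + J) * (A - (u i + J))) := by
        have e1 : A ≠ 0 := hApos.ne'
        have e2 : K + m + J ≠ 0 := hADpos.ne'
        have e3 : A - (u i + J) ≠ 0 := hR.ne'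
        rw [conv_aux A (K + m + J) (u i + J) e1 e2 e3]
        have e4 : A - (K + m + J) = n - m + J := by rw [hA]; ring
        rw [e4]
      have hnn : 0 ≤ (A + 1) * ((u i + J) * (n - m + J - (u i + J))) / (A * (K + m + J) * (A - (u i + J))) := by
        apply div_nonneg
        · apply mul_nonneg (by linarith)
          apply mul_nonneg hx0 (by linarith)
        · positivity
      linarith
    -- the total increment
    have hT : ∑ i ∈ S, W n k (u i) J * ((u i + J + 1) / R n k (u i) (J + 1)) ≤ 1 := by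
      calc ∑ i ∈ S, W n k (u i) J * ((u i + J + 1) / R n k (u i) (J + 1))
          ≤ ∑ i ∈ S, W n k (u i) J * (1 / A + (A + 1) * (u i + J) / (A * (K + m + J))) := by
            apply Finset.sum_le_sum
            intro i hi
            exact mul_le_mul_of_nonneg_left (hpt i hi) (W_pos hm (hu i hi) (hu0 i hi) hk0 J).le
        _ = (∑ i ∈ S, W n k (u i) J) * (1 / A)
            + (∑ i ∈ S, W n k (u i) J * (u i + J)) * ((A + 1) / (A * (K + m + J))) := by
            rw [Finset.sum_mul, Finset.sum_mul, ← Finset.sum_add_distrib]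
            apply Finset.sum_congr rfl
            intro i _
            ring
        _ ≤ (m + J) * (1 / A) + K * ((A + 1) / (A * (K + m + J))) := by
            gcongr
        _ ≤ 1 := by
            have : (m + J) * (1 / A) + K * ((A + 1) / (A * (K + m + J)))
                = ((m + J) * (K + m + J) + K * (A + 1)) / (A * (K + m + J)) := by
              field_simp
            rw [this, div_le_one (by positivity)]
            rw [hA]
            nlinarith
    have hstep : ∀ i ∈ S, W n k (u i) (J + 1) = W n k (u i) J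
        + W n k (u i) J * ((u i + J + 1) / R n k (u i) (J + 1)) := by
      intro i hi
      have hR := R_pos hm (hu i hi) (hu0 i hi) hk0 J
      have : Q n k (J + 1) = R n k (u i) (J + 1) + (u i + J + 1) := by
        unfold Q R; push_cast; ring
      rw [W_succ, this, add_div, div_self hR.ne']
      ring
    constructor
    · rw [Finset.sum_congr rfl hstep, Finset.sum_add_distrib]
      push_cast
      linarith
    · have h2 : ∑ i ∈ S, W n k (u i) (J + 1) * (u i + ((J + 1 : ℕ) : ℝ))
          = Q n k (J + 1) * ∑ i ∈ S, W n k (u i) J * ((u i + J + 1) / R n k (u i) (J + 1)) := by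
        rw [Finset.mul_sum]
        apply Finset.sum_congr rfl
        intro i _
        rw [W_succ]
        push_cast
        ring
      rw [h2]
      have hQ := Q_pos (n := n) (k := k) (by linarith) hk0 J
      nlinarith

/-- The key inequality. -/
lemma key_ineq {ι : Type} (S : Finset ι) (u : ι → ℕ) (n k : ℕ)
    (hu : ∀ i ∈ S, u i + S.card ≤ n) (hsum : ∑ i ∈ S, u i ≤ k) (hSn : S.card ≤ n) (J : ℕ) :
    ∑ i ∈ S, W n k (u i) J ≤ n + J := by
  rcases Nat.eq_zero_or_pos S.card with h0 | hpos
  · rw [Finset.card_eq_zero] at h0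
    subst h0
    simp
    positivity
  · have hm : (1:ℝ) ≤ (S.card : ℝ) := by exact_mod_cast hpos
    have hSn' : (S.card : ℝ) ≤ n := by exact_mod_cast hSn
    have hu' : ∀ i ∈ S, (u i : ℝ) ≤ n - S.card := by
      intro i hi
      have : ((u i + S.card : ℕ) : ℝ) ≤ n := by exact_mod_cast hu i hi
      push_cast at this
      linarith
    have hu0' : ∀ i ∈ S, (0:ℝ) ≤ u i := fun i _ => Nat.cast_nonneg _
    have hsum' : ∑ i ∈ S, (u i : ℝ) ≤ k := by exact_mod_cast hsum
    have hk0 : (0:ℝ) ≤ k := Nat.cast_nonneg _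
    have main : ∑ i ∈ S, W n k (u i) J ≤ S.card + J := by
      rcases le_total ((S.card : ℝ) * (n - S.card)) k with hA | hB
      · calc ∑ i ∈ S, W n k (u i) J ≤ ∑ i ∈ S, ((J:ℝ) + S.card) / S.card :=
              Finset.sum_le_sum fun i hi => caseA hm (hu' i hi) (hu0' i hi) hA hk0 J
          _ = S.card + J := by
              rw [Finset.sum_const, nsmul_eq_mul]
              field_simp
              ring
      · exact (caseB S (fun i => (u i : ℝ)) hm rfl hu' hu0' hsum' hB hk0 (by linarith) J).1
    linarith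

/-! ## The combinatorial part -/

section comb

open Classical

variable {α : Type} (lt : α → α → Prop)

/-- linear extensions of `lt` restricted to the finite set `s`, as lists -/
def LE (s : Finset α) : Set (List α) :=
  {l | l.Nodup ∧ l.toFinset = s ∧ l.Pairwise (fun a b => ¬ lt b a)}

/-- minimal elements of `s` -/
noncomputable def mins (s : Finset α) : Finset α := s.filter (fun x => ∀ y ∈ s, ¬ lt y x)

/-- elements of `s` above `x` -/
noncomputable def up (s : Finset α) (x : α) : Finset α := s.filter (fun y => lt x y)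

/-- the comparable pairs in `s` -/
noncomputable def prs (s : Finset α) : Finset (α × α) := (s ×ˢ s).filter (fun p => lt p.1 p.2)

lemma prs_erase (s : Finset α) (x : α) (hx : x ∈ mins lt s) :
    (prs lt (s.erase x)).card + (up lt s x).card = (prs lt s).card := by
  have hxs : x ∈ s := (Finset.mem_filter.mp hx).1
  have hmin := (Finset.mem_filter.mp hx).2
  have h1 : ((up lt s x).image (fun y => (x, y))).card = (up lt s x).card :=
    Finset.card_image_of_injective _ (fun a b h => by simpa using h)
  rw [← h1, ← Finset.card_union_of_disjoint]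
  · congr 1
    ext ⟨a, b⟩
    simp only [prs, up, Finset.mem_union, Finset.mem_filter, Finset.mem_product, Finset.mem_erase,
      Finset.mem_image, Prod.mk.injEq]
    constructor
    · rintro (⟨⟨⟨_, ha⟩, ⟨_, hb⟩⟩, hlt⟩ | ⟨y, ⟨hy, hlt⟩, rfl, rfl⟩)
      · exact ⟨⟨ha, hb⟩, hlt⟩
      · exact ⟨⟨hxs, hy⟩, hlt⟩
    · rintro ⟨⟨ha, hb⟩, hlt⟩
      by_cases hax : a = x
      · right
        subst hax
        exact ⟨b, ⟨hb, hlt⟩, rfl, rfl⟩
      · left
        refine ⟨⟨⟨hax, ha⟩, ⟨?_, hb⟩⟩, hlt⟩
        rintro rfl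
        exact hmin a ha hlt
  · rw [Finset.disjoint_left]
    rintro ⟨a, b⟩ h h'
    simp only [prs, Finset.mem_filter, Finset.mem_product, Finset.mem_erase] at h
    simp only [Finset.mem_image, Prod.mk.injEq] at h'
    obtain ⟨y, _, rfl, rfl⟩ := h'
    exact h.1.1.1 rfl

lemma sum_up_le (s : Finset α) : ∑ x ∈ mins lt s, (up lt s x).card ≤ (prs lt s).card := by
  rw [← Finset.card_sigma]
  apply Finset.card_le_card_of_injOn (fun p => (p.1, p.2))
  · rintro ⟨x, y⟩ h
    simp only [Finset.coe_sigma, Set.mem_sigma_iff, Finset.mem_coe, mins, up, Finset.mem_filter] at h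
    simp only [Finset.mem_coe, prs, Finset.mem_filter, Finset.mem_product]
    exact ⟨⟨h.1.1, h.2.1⟩, h.2.2⟩
  · rintro ⟨x, y⟩ _ ⟨x', y'⟩ _ h
    simp only [Prod.mk.injEq] at h
    obtain ⟨rfl, rfl⟩ := h
    rfl

lemma up_add_mins (s : Finset α) (x : α) (hx : x ∈ s) :
    (up lt s x).card + (mins lt s).card ≤ s.card := by
  rw [← Finset.card_union_of_disjoint]
  · apply Finset.card_le_card
    intro y hy
    rcases Finset.mem_union.mp hy with h | h
    · exact (Finset.mem_filter.mp h).1
    · exact (Finset.mem_filter.mp h).1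
  · rw [Finset.disjoint_left]
    intro y h h'
    exact (Finset.mem_filter.mp h').2 x hx (Finset.mem_filter.mp h).2

lemma LE_empty : LE lt (∅ : Finset α) = {[]} := by
  ext l
  simp only [LE, Set.mem_ofPred_eq, Set.mem_singleton_iff]
  constructor
  · rintro ⟨_, h, _⟩
    exact List.toFinset_eq_empty_iff l |>.mp h
  · rintro rfl
    simp

lemma LE_subset (hirr : ∀ a, ¬ lt a a) (s : Finset α) (hs : s.Nonempty) :
    LE lt s ⊆ ⋃ x ∈ mins lt s, (List.cons x) '' LE lt (s.erase x) := by
  rintro l ⟨hnd, hto, hpw⟩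
  cases l with
  | nil =>
    simp only [List.toFinset_nil] at hto
    rw [← hto] at hs
    exact absurd hs (by simp)
  | cons x t =>
    rw [List.nodup_cons] at hnd
    rw [List.pairwise_cons] at hpw
    have hxs : x ∈ s := by rw [← hto]; simp
    simp only [Set.mem_iUnion]
    refine ⟨x, ?_, t, ⟨hnd.2, ?_, hpw.2⟩, rfl⟩
    · rw [mins, Finset.mem_filter]
      refine ⟨hxs, fun y hy hlt => ?_⟩
      rw [← hto] at hy
      simp only [List.toFinset_cons, Finset.mem_insert, List.mem_toFinset] at hy
      rcases hy with rfl | hy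
      · exact hirr _ hlt
      · exact hpw.1 y hy hlt
    · rw [← hto]
      ext y
      simp only [List.mem_toFinset, List.toFinset_cons, Finset.mem_erase, Finset.mem_insert]
      constructor
      · intro hy
        exact ⟨fun h => hnd.1 (h ▸ hy), Or.inr hy⟩
      · rintro ⟨h1, h2 | h2⟩
        · exact absurd h2 h1
        · exact h2

lemma prod_Q_zero (J : ℕ) : ∏ j ∈ Finset.range J, Q 0 0 (j + 1) = ((J.factorial : ℝ)) ^ 2 := by
  induction J with
  | zero => simp
  | succ J ih =>
    rw [Finset.prod_range_succ, ih, Nat.factorial_succ]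
    unfold Q
    push_cast
    ring

lemma W_div {n k u : ℝ} (J : ℕ) : W n k u J
    = (∏ j ∈ Finset.range J, Q n k (j + 1)) / (∏ j ∈ Finset.range J, Q (n - 1) (k - u) (j + 1)) := by
  unfold W
  rw [Finset.prod_div_distrib]
  rfl

/-- The main bound: for every `J`, `e(s) * ∏_{j=1}^J (j^2 + |s| j + k(s)) ≤ J! (|s|+J)!`. -/
theorem main_bound (hirr : ∀ a, ¬ lt a a) (J : ℕ) (N : ℕ) : ∀ s : Finset α, s.card = N →
    (LE lt s).Finite ∧
    ((LE lt s).ncard : ℝ) * ∏ j ∈ Finset.range J, Q s.card (prs lt s).card (j + 1)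
      ≤ (J.factorial : ℝ) * ((s.card + J).factorial : ℝ) := by
  induction N with
  | zero =>
    intro s hs
    rw [Finset.card_eq_zero] at hs
    subst hs
    rw [LE_empty]
    refine ⟨Set.finite_singleton _, ?_⟩
    have h0 : (prs lt (∅ : Finset α)).card = 0 := by simp [prs]
    rw [h0, Set.ncard_singleton]
    simp only [Finset.card_empty, Nat.cast_zero, Nat.cast_one, one_mul, zero_add]
    rw [prod_Q_zero, sq]
  | succ N ih =>
    intro s hs
    have hne : s.Nonempty := by
      rw [← Finset.card_pos]; omega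
    have hsub := LE_subset lt hirr s hne
    have hfinU : (⋃ x ∈ mins lt s, (List.cons x) '' LE lt (s.erase x)).Finite := by
      apply Set.Finite.biUnion (Finset.finite_toSet _)
      intro x hx
      have hxs : x ∈ s := (Finset.mem_filter.mp hx).1
      apply Set.Finite.image
      exact (ih (s.erase x) (by rw [Finset.card_erase_of_mem hxs]; omega)).1
    refine ⟨hfinU.subset hsub, ?_⟩
    have hcard : (LE lt s).ncard ≤ ∑ x ∈ mins lt s, (LE lt (s.erase x)).ncard := by
      calc (LE lt s).ncard ≤ (⋃ x ∈ mins lt s, (List.cons x) '' LE lt (s.erase x)).ncard :=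
            Set.ncard_le_ncard hsub hfinU
        _ ≤ ∑ x ∈ mins lt s, ((List.cons x) '' LE lt (s.erase x)).ncard :=
            Finset.set_ncard_biUnion_le _ _
        _ = ∑ x ∈ mins lt s, (LE lt (s.erase x)).ncard := by
            apply Finset.sum_congr rfl
            intro x _
            exact Set.ncard_image_of_injective _ (List.cons_injective)
    set P : ℝ := ∏ j ∈ Finset.range J, Q s.card (prs lt s).card (j + 1) with hP
    have hPpos : 0 < P := by
      rw [hP]
      apply Finset.prod_pos
      intro j _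
      exact Q_pos (Nat.cast_nonneg _) (Nat.cast_nonneg _) j
    have hterm : ∀ x ∈ mins lt s, ((LE lt (s.erase x)).ncard : ℝ) * P
        ≤ (J.factorial : ℝ) * ((N + J).factorial : ℝ)
          * W s.card (prs lt s).card (up lt s x).card J := by
      intro x hx
      have hxs : x ∈ s := (Finset.mem_filter.mp hx).1
      have hce : (s.erase x).card = N := by rw [Finset.card_erase_of_mem hxs]; omega
      have h := (ih (s.erase x) hce).2
      have hpe := prs_erase lt s x hx
      rw [hce] at h
      have e1 : ((s.card : ℝ)) - 1 = N := by rw [hs]; push_cast; ring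
      have e2 : ((prs lt s).card : ℝ) - ((up lt s x).card : ℝ) = ((prs lt (s.erase x)).card : ℝ) := by
        rw [← hpe]; push_cast; ring
      rw [W_div, e1, e2, ← hP]
      set P' : ℝ := ∏ j ∈ Finset.range J, Q N (prs lt (s.erase x)).card (j + 1) with hP'
      have hP'pos : 0 < P' := by
        rw [hP']
        apply Finset.prod_pos
        intro j _
        exact Q_pos (Nat.cast_nonneg _) (Nat.cast_nonneg _) j
      rw [← mul_div_assoc, le_div_iff₀ hP'pos]
      calc ((LE lt (s.erase x)).ncard : ℝ) * P * P'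
          = (((LE lt (s.erase x)).ncard : ℝ) * P') * P := by ring
        _ ≤ (J.factorial : ℝ) * ((N + J).factorial : ℝ) * P :=
            mul_le_mul_of_nonneg_right h hPpos.le
    have hkey := key_ineq (mins lt s) (fun x => (up lt s x).card) s.card (prs lt s).card
      (fun x hx => up_add_mins lt s x (Finset.mem_filter.mp hx).1) (sum_up_le lt s)
      (Finset.card_le_card (Finset.filter_subset _ _)) J
    calc ((LE lt s).ncard : ℝ) * P
        ≤ ((∑ x ∈ mins lt s, (LE lt (s.erase x)).ncard : ℕ) : ℝ) * P := by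
          apply mul_le_mul_of_nonneg_right _ hPpos.le
          exact_mod_cast hcard
      _ = ∑ x ∈ mins lt s, ((LE lt (s.erase x)).ncard : ℝ) * P := by
          push_cast
          rw [Finset.sum_mul]
      _ ≤ ∑ x ∈ mins lt s, (J.factorial : ℝ) * ((N + J).factorial : ℝ)
          * W s.card (prs lt s).card (up lt s x).card J := Finset.sum_le_sum hterm
      _ = (J.factorial : ℝ) * ((N + J).factorial : ℝ)
          * ∑ x ∈ mins lt s, W s.card (prs lt s).card (up lt s x).card J := by
          rw [Finset.mul_sum]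
      _ ≤ (J.factorial : ℝ) * ((N + J).factorial : ℝ) * (s.card + J) := by
          apply mul_le_mul_of_nonneg_left hkey
          positivity
      _ = (J.factorial : ℝ) * ((s.card + J).factorial : ℝ) := by
          have : s.card + J = (N + J) + 1 := by omega
          rw [this, Nat.factorial_succ]
          have h2 : ((s.card : ℝ) + J) = ((N + J + 1 : ℕ) : ℝ) := by
            rw [← this]; push_cast; ring
          rw [h2]
          push_cast
          ring

end comb

/-! ## Conclusion -/

lemma prod_Q_st (s t J : ℕ) : (∏ j ∈ Finset.range J, Q (s + t : ℕ) (s * t : ℕ) (j + 1))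
      * ((s.factorial : ℝ) * t.factorial)
    = ((J + s).factorial : ℝ) * ((J + t).factorial : ℝ) := by
  induction J with
  | zero => simp
  | succ J ih =>
    rw [Finset.prod_range_succ]
    have e1 : J + 1 + s = (J + s) + 1 := by omega
    have e2 : J + 1 + t = (J + t) + 1 := by omega
    rw [e1, e2, Nat.factorial_succ, Nat.factorial_succ]
    calc (∏ x ∈ Finset.range J, Q (s + t : ℕ) (s * t : ℕ) (x + 1)) * Q (s + t : ℕ) (s * t : ℕ) (J + 1)
          * ((s.factorial : ℝ) * t.factorial)
        = ((∏ x ∈ Finset.range J, Q (s + t : ℕ) (s * t : ℕ) (x + 1))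
          * ((s.factorial : ℝ) * t.factorial)) * Q (s + t : ℕ) (s * t : ℕ) (J + 1) := by ring
      _ = _ := by
        rw [ih]
        unfold Q
        push_cast
        ring

lemma ratio_fact (s t J : ℕ) :
    (J.factorial : ℝ) * ((s + t + J).factorial : ℝ)
      ≤ ((J + s).factorial : ℝ) * ((J + t).factorial : ℝ) * (1 + s / (J + 1)) ^ t := by
  induction t with
  | zero =>
    simp only [add_zero, pow_zero, mul_one]
    rw [mul_comm, add_comm s J]
  | succ t ih =>
    have e1 : s + (t + 1) + J = (s + t + J) + 1 := by omega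
    have e2 : J + (t + 1) = (J + t) + 1 := by omega
    rw [e1, e2, Nat.factorial_succ, Nat.factorial_succ, pow_succ]
    have hj : (0:ℝ) ≤ J := Nat.cast_nonneg J
    have ht : (0:ℝ) ≤ t := Nat.cast_nonneg t
    have hs : (0:ℝ) ≤ s := Nat.cast_nonneg s
    have h1 : ((s + t + J + 1 : ℕ) : ℝ) ≤ ((J + t + 1 : ℕ) : ℝ) * (1 + s / (J + 1)) := by
      push_cast
      have : (J + t + 1 : ℝ) * (1 + s / (J + 1)) = (J + t + 1) + s + t * s / (J + 1) := by
        field_simp
        ring
      rw [this]
      have : 0 ≤ t * s / ((J:ℝ) + 1) := by positivity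
      linarith
    calc (J.factorial : ℝ) * (((s + t + J + 1) * (s + t + J).factorial : ℕ) : ℝ)
        = ((s + t + J + 1 : ℕ) : ℝ) * ((J.factorial : ℝ) * ((s + t + J).factorial : ℝ)) := by
          push_cast; ring
      _ ≤ (((J + t + 1 : ℕ) : ℝ) * (1 + s / (J + 1)))
          * (((J + s).factorial : ℝ) * ((J + t).factorial : ℝ) * (1 + s / (J + 1)) ^ t) := by
          apply mul_le_mul h1 ih (by positivity) (by positivity)
      _ = _ := by push_cast; ring

lemma final_nat (e s t : ℕ) (h : ∀ J : ℕ, (e : ℝ) * ∏ j ∈ Finset.range J, Q (s + t : ℕ) (s * t : ℕ) (j + 1)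
      ≤ (J.factorial : ℝ) * ((s + t + J).factorial : ℝ)) : e ≤ s.factorial * t.factorial := by
  have h2 : ∀ J : ℕ, (e : ℝ) ≤ (s.factorial : ℝ) * t.factorial * (1 + s / (J + 1)) ^ t := by
    intro J
    have hf : (0:ℝ) < (s.factorial : ℝ) * t.factorial := by positivity
    have hg : (0:ℝ) < ((J + s).factorial : ℝ) * ((J + t).factorial : ℝ) := by positivity
    have h3 := mul_le_mul_of_nonneg_right (h J) hf.le
    have h4 : (e : ℝ) * (((J + s).factorial : ℝ) * ((J + t).factorial : ℝ))
        ≤ ((s.factorial : ℝ) * t.factorial * (1 + s / (J + 1)) ^ t)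
          * (((J + s).factorial : ℝ) * ((J + t).factorial : ℝ)) := by
      calc (e : ℝ) * (((J + s).factorial : ℝ) * ((J + t).factorial : ℝ))
          = (e : ℝ) * (∏ j ∈ Finset.range J, Q (s + t : ℕ) (s * t : ℕ) (j + 1))
            * ((s.factorial : ℝ) * t.factorial) := by
            rw [← prod_Q_st]; ring
        _ ≤ (J.factorial : ℝ) * ((s + t + J).factorial : ℝ) * ((s.factorial : ℝ) * t.factorial) := h3
        _ ≤ (((J + s).factorial : ℝ) * ((J + t).factorial : ℝ) * (1 + s / (J + 1)) ^ t)
            * ((s.factorial : ℝ) * t.factorial) :=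
            mul_le_mul_of_nonneg_right (ratio_fact s t J) hf.le
        _ = _ := by ring
    exact le_of_mul_le_mul_right h4 hg
  have hlim : Filter.Tendsto (fun J : ℕ => (s.factorial : ℝ) * t.factorial * (1 + s / ((J:ℝ) + 1)) ^ t)
      Filter.atTop (nhds ((s.factorial : ℝ) * t.factorial * (1 + 0) ^ t)) := by
    apply Filter.Tendsto.const_mul
    apply Filter.Tendsto.pow
    apply Filter.Tendsto.const_add
    have h5 := (tendsto_one_div_add_atTop_nhds_zero_nat (𝕜 := ℝ)).const_mul (s : ℝ)
    simp only [mul_zero] at h5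
    refine h5.congr fun J => ?_
    ring
  have h6 : (e : ℝ) ≤ (s.factorial : ℝ) * t.factorial * (1 + 0) ^ t :=
    ge_of_tendsto' hlim h2
  simp only [add_zero, one_pow, mul_one] at h6
  exact_mod_cast h6


end Pool.Agent.LinExt
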